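import Pool.Agent.Sun64.Core

/-! Products of primes: totient bounds by blocks. -/

namespace Pool.Agent.Sun64

open Nat

/-- `q` is a prime below `350 ^ 2` -/
def isP (q : ℕ) : Bool :=
  Nat.ble 2 q && Nat.ble q 122499 && SP.all (fun d => !(Nat.beq (q % d) 0) || Nat.beq q d)

theorem isP_spec {q : ℕ} (h : isP q = true) : q.Prime := by
  simp only [isP, Bool.and_eq_true, Nat.ble_eq, List.all_eq_true, Bool.or_eq_true,
    Bool.not_eq_true'] at h
  obtain ⟨⟨h1, h2⟩, h3⟩ := h
  by_contra hn
  have hd := Nat.minFac_dvd q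
  have hp := Nat.minFac_prime (show q ≠ 1 by omega)
  have hs := Nat.minFac_sq_le_self (by omega) hn
  have hlt : q.minFac < 350 := by
    by_contra hc
    push Not at hc
    have : 350 ^ 2 ≤ q.minFac ^ 2 := Nat.pow_le_pow_left hc 2
    have : (350 : ℕ) ^ 2 = 122500 := by norm_num
    omega
  have key : ∀ d ∈ List.range 350, d < 2 ∨ SP.elem d = true ∨ hasDiv d = true := by
    decide +kernel
  rcases key _ (List.mem_range.2 hlt) with h4 | h4 | h4
  · exact absurd hp.two_le (by omega)
  · have hm : q.minFac ∈ SP := by simpa using h4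
    rcases h3 _ hm with h5 | h5
    · have h6 : q % q.minFac = 0 := Nat.mod_eq_zero_of_dvd hd
      rw [h6] at h5
      simp at h5
    · have h6 : q = q.minFac := Nat.eq_of_beq_eq_true h5
      rw [h6] at hn
      exact hn hp
  · exact not_prime_of_hasDiv h4 hp

/-- strictly increasing moduli -/
def inc : ℕ → List Ent → Bool
  | _, [] => true
  | p, x :: xs => Nat.ble (p + 1) x.q && isP x.q && inc x.q xs

theorem lastq_ge : ∀ (l : List Ent) (p : ℕ), inc p l = true → p ≤ lastq p l := by
  intro l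
  induction l with
  | nil => intro p _; exact le_rfl
  | cons x xs ih =>
    intro p h
    simp only [inc, Bool.and_eq_true, Nat.ble_eq] at h
    have := ih x.q h.2
    simp only [lastq]
    omega

theorem seg_list : ∀ (l : List Ent) (p : ℕ), inc p l = true →
    0 < (l.map Ent.q).prod ∧
    (∀ r : ℕ, r.Prime → r ∣ (l.map Ent.q).prod → p < r ∧ r ≤ lastq p l) ∧
    φ (l.map Ent.q).prod = (l.map (fun x => x.q - 1)).prod := by
  intro l
  induction l with
  | nil =>
    intro p _
    refine ⟨by simp, ?_, by simp⟩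
    intro r hr hd
    simp only [List.map_nil, List.prod_nil] at hd
    exact absurd (Nat.dvd_one.1 hd) hr.one_lt.ne'
  | cons x xs ih =>
    intro p h
    simp only [inc, Bool.and_eq_true, Nat.ble_eq] at h
    obtain ⟨⟨h1, h2⟩, h3⟩ := h
    have hp := isP_spec h2
    obtain ⟨i1, i2, i3⟩ := ih x.q h3
    refine ⟨?_, ?_, ?_⟩
    · simp only [List.map_cons, List.prod_cons]; exact Nat.mul_pos hp.pos i1
    · intro r hr hd
      simp only [List.map_cons, List.prod_cons] at hd
      simp only [lastq]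
      rcases (Nat.Prime.dvd_mul hr).1 hd with h4 | h4
      · have h5 := (Nat.prime_dvd_prime_iff_eq hr hp).1 h4
        have := lastq_ge xs x.q h3
        omega
      · have := i2 r hr h4
        omega
    · simp only [List.map_cons, List.prod_cons]
      have hc : Nat.Coprime x.q (xs.map Ent.q).prod := by
        rw [Nat.Prime.coprime_iff_not_dvd hp]
        intro hd
        have := (i2 _ hp hd).1
        omega
      rw [Nat.totient_mul hc, Nat.totient_prime hp, i3]

/-- a product of primes in `(lo, hi]` with totient ratio at most `x / y` -/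
def Seg (lo hi x y : ℕ) : Prop := ∃ P, 0 < P ∧
  (∀ r : ℕ, r.Prime → r ∣ P → lo < r ∧ r ≤ hi) ∧ φ P * y ≤ x * P

theorem Seg.merge {a b c x y x' y' : ℕ} (h : Seg a b x y) (h' : Seg b c x' y') (hab : a ≤ b)
    (hbc : b ≤ c) : Seg a c (x * x') (y * y') := by
  obtain ⟨P, p1, p2, p3⟩ := h
  obtain ⟨Q, q1, q2, q3⟩ := h'
  refine ⟨P * Q, Nat.mul_pos p1 q1, ?_, ?_⟩
  · intro r hr hd
    rcases (Nat.Prime.dvd_mul hr).1 hd with h1 | h1
    · have := p2 r hr h1; omega
    · have := q2 r hr h1; omega
  · have hc : Nat.Coprime P Q := by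
      rw [Nat.coprime_iff_gcd_eq_one]
      by_contra hne
      obtain ⟨r, hr, hd⟩ := Nat.exists_prime_and_dvd hne
      have h1 := (p2 r hr (hd.trans (Nat.gcd_dvd_left _ _))).2
      have h2 := (q2 r hr (hd.trans (Nat.gcd_dvd_right _ _))).1
      omega
    rw [Nat.totient_mul hc]
    calc φ P * φ Q * (y * y') = (φ P * y) * (φ Q * y') := by ring
      _ ≤ (x * P) * (x' * Q) := Nat.mul_le_mul p3 q3
      _ = x * x' * (P * Q) := by ring

theorem Seg.weaken {a b x y x' y' : ℕ} (h : Seg a b x y) (hy : 0 < y) (hx : x * y' ≤ x' * y) :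
    Seg a b x' y' := by
  obtain ⟨P, p1, p2, p3⟩ := h
  refine ⟨P, p1, p2, ?_⟩
  have : y * (φ P * y') ≤ y * (x' * P) := by
    calc y * (φ P * y') = (φ P * y) * y' := by ring
      _ ≤ (x * P) * y' := Nat.mul_le_mul_right _ p3
      _ = (x * y') * P := by ring
      _ ≤ (x' * y) * P := Nat.mul_le_mul_right _ hx
      _ = y * (x' * P) := by ring
  exact Nat.le_of_mul_le_mul_left this hy

/-- check of a block -/
def segB (lo hi x y : ℕ) (l : List Ent) : Bool :=
  inc lo l && Nat.beq (lastq lo l) hi &&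
    Nat.ble ((l.map (fun x => x.q - 1)).prod * y) (x * (l.map Ent.q).prod)

theorem segB_spec {lo hi x y : ℕ} {l : List Ent} (h : segB lo hi x y l = true) :
    Seg lo hi x y := by
  simp only [segB, Bool.and_eq_true, Nat.ble_eq] at h
  obtain ⟨⟨h1, h2⟩, h3⟩ := h
  have h2 := Nat.eq_of_beq_eq_true h2
  obtain ⟨i1, i2, i3⟩ := seg_list l lo h1
  rw [h2] at i2
  exact ⟨_, i1, i2, by rw [i3]; exact h3⟩

end Pool.Agent.Sun64
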