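import Pool.Agent.Sun64.Data1
import Pool.Agent.Sun64.Seg

namespace Pool.Agent.Sun64

theorem s12 : Seg 9931 10891 990446495616 1000000000000 :=
  segB_spec (l := D12) (by decide +kernel)

theorem s13 : Seg 10891 11897 991261064660 1000000000000 :=
  segB_spec (l := D13) (by decide +kernel)

theorem s14 : Seg 11897 12791 991926881210 1000000000000 :=
  segB_spec (l := D14) (by decide +kernel)

theorem s15 : Seg 12791 13729 992487633818 1000000000000 :=
  segB_spec (l := D15) (by decide +kernel)

theorem s16 : Seg 13729 14737 993003803082 1000000000000 :=
  segB_spec (l := D16) (by decide +kernel)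

theorem s17 : Seg 14737 15647 993436809835 1000000000000 :=
  segB_spec (l := D17) (by decide +kernel)

theorem s18 : Seg 15647 16649 993818342142 1000000000000 :=
  segB_spec (l := D18) (by decide +kernel)

theorem s19 : Seg 16649 17609 994182804442 1000000000000 :=
  segB_spec (l := D19) (by decide +kernel)

theorem s20 : Seg 17609 18553 994490498767 1000000000000 :=
  segB_spec (l := D20) (by decide +kernel)

theorem s21 : Seg 18553 19609 994789253625 1000000000000 :=
  segB_spec (l := D21) (by decide +kernel)

theorem s22 : Seg 19609 20627 995043414515 1000000000000 :=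
  segB_spec (l := D22) (by decide +kernel)

theorem s23 : Seg 20627 21599 995278371571 1000000000000 :=
  segB_spec (l := D23) (by decide +kernel)

theorem SF1 : Seg 9931 21599 923010340107 1000000000000 :=
  (((((((((((s12.merge s13 (by norm_num) (by norm_num)).merge s14 (by norm_num) (by norm_num)).merge s15 (by norm_num) (by norm_num)).merge s16 (by norm_num) (by norm_num)).merge s17 (by norm_num) (by norm_num)).merge s18 (by norm_num) (by norm_num)).merge s19 (by norm_num) (by norm_num)).merge s20 (by norm_num) (by norm_num)).merge s21 (by norm_num) (by norm_num)).merge s22 (by norm_num) (by norm_num)).merge s23 (by norm_num) (by norm_num)).weaken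
    (by norm_num) (by norm_num)

end Pool.Agent.Sun64
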