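import Pool.Agent.Sun64.Data2
import Pool.Agent.Sun64.Seg

namespace Pool.Agent.Sun64

theorem s24 : Seg 21599 22613 995482780412 1000000000000 :=
  segB_spec (l := D24) (by decide +kernel)

theorem s25 : Seg 22613 23599 995677359722 1000000000000 :=
  segB_spec (l := D25) (by decide +kernel)

theorem s26 : Seg 23599 24571 995852225206 1000000000000 :=
  segB_spec (l := D26) (by decide +kernel)

theorem s27 : Seg 24571 25643 996029483693 1000000000000 :=
  segB_spec (l := D27) (by decide +kernel)

theorem s28 : Seg 25643 26683 996183864915 1000000000000 :=
  segB_spec (l := D28) (by decide +kernel)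

theorem s29 : Seg 26683 27739 996326525820 1000000000000 :=
  segB_spec (l := D29) (by decide +kernel)

theorem s30 : Seg 27739 28687 996462157622 1000000000000 :=
  segB_spec (l := D30) (by decide +kernel)

theorem s31 : Seg 28687 29753 996582140170 1000000000000 :=
  segB_spec (l := D31) (by decide +kernel)

theorem s32 : Seg 29753 30841 996705692347 1000000000000 :=
  segB_spec (l := D32) (by decide +kernel)

theorem s33 : Seg 30841 31883 996814551878 1000000000000 :=
  segB_spec (l := D33) (by decide +kernel)

theorem s34 : Seg 31883 32887 996917567434 1000000000000 :=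
  segB_spec (l := D34) (by decide +kernel)

theorem s35 : Seg 32887 33851 997008160235 1000000000000 :=
  segB_spec (l := D35) (by decide +kernel)

theorem SF2 : Seg 21599 33851 956916080624 1000000000000 :=
  (((((((((((s24.merge s25 (by norm_num) (by norm_num)).merge s26 (by norm_num) (by norm_num)).merge s27 (by norm_num) (by norm_num)).merge s28 (by norm_num) (by norm_num)).merge s29 (by norm_num) (by norm_num)).merge s30 (by norm_num) (by norm_num)).merge s31 (by norm_num) (by norm_num)).merge s32 (by norm_num) (by norm_num)).merge s33 (by norm_num) (by norm_num)).merge s34 (by norm_num) (by norm_num)).merge s35 (by norm_num) (by norm_num)).weaken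
    (by norm_num) (by norm_num)

end Pool.Agent.Sun64
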