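import Pool.Agent.Sun64.Data3
import Pool.Agent.Sun64.Seg

namespace Pool.Agent.Sun64

theorem s36 : Seg 33851 34897 997096474613 1000000000000 :=
  segB_spec (l := D36) (by decide +kernel)

theorem s37 : Seg 34897 36007 997184086532 1000000000000 :=
  segB_spec (l := D37) (by decide +kernel)

theorem s38 : Seg 36007 37013 997266358379 1000000000000 :=
  segB_spec (l := D38) (by decide +kernel)

theorem s39 : Seg 37013 38119 997340640258 1000000000000 :=
  segB_spec (l := D39) (by decide +kernel)

theorem s40 : Seg 38119 39181 997416906522 1000000000000 :=
  segB_spec (l := D40) (by decide +kernel)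

theorem s41 : Seg 39181 40231 997484452772 1000000000000 :=
  segB_spec (l := D41) (by decide +kernel)

theorem s42 : Seg 40231 41333 997552771248 1000000000000 :=
  segB_spec (l := D42) (by decide +kernel)

theorem s43 : Seg 41333 42331 997612789296 1000000000000 :=
  segB_spec (l := D43) (by decide +kernel)

theorem s44 : Seg 42331 43399 997667273432 1000000000000 :=
  segB_spec (l := D44) (by decide +kernel)

theorem s45 : Seg 43399 44501 997727100011 1000000000000 :=
  segB_spec (l := D45) (by decide +kernel)

theorem s46 : Seg 44501 45587 997781368066 1000000000000 :=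
  segB_spec (l := D46) (by decide +kernel)

theorem s47 : Seg 45587 46687 997835605069 1000000000000 :=
  segB_spec (l := D47) (by decide +kernel)

theorem SF3 : Seg 33851 46687 970375526202 1000000000000 :=
  (((((((((((s36.merge s37 (by norm_num) (by norm_num)).merge s38 (by norm_num) (by norm_num)).merge s39 (by norm_num) (by norm_num)).merge s40 (by norm_num) (by norm_num)).merge s41 (by norm_num) (by norm_num)).merge s42 (by norm_num) (by norm_num)).merge s43 (by norm_num) (by norm_num)).merge s44 (by norm_num) (by norm_num)).merge s45 (by norm_num) (by norm_num)).merge s46 (by norm_num) (by norm_num)).merge s47 (by norm_num) (by norm_num)).weaken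
    (by norm_num) (by norm_num)

end Pool.Agent.Sun64
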