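import Pool.Agent.Sun64.Data4
import Pool.Agent.Sun64.Seg

namespace Pool.Agent.Sun64

theorem s48 : Seg 46687 47779 997886085233 1000000000000 :=
  segB_spec (l := D48) (by decide +kernel)

theorem s49 : Seg 47779 48859 997933355997 1000000000000 :=
  segB_spec (l := D49) (by decide +kernel)

theorem s50 : Seg 48859 49921 997977519864 1000000000000 :=
  segB_spec (l := D50) (by decide +kernel)

theorem s51 : Seg 49921 51043 998020027343 1000000000000 :=
  segB_spec (l := D51) (by decide +kernel)

theorem s52 : Seg 51043 52067 998062221565 1000000000000 :=
  segB_spec (l := D52) (by decide +kernel)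

theorem s53 : Seg 52067 53171 998102069238 1000000000000 :=
  segB_spec (l := D53) (by decide +kernel)

theorem s54 : Seg 53171 54319 998140666385 1000000000000 :=
  segB_spec (l := D54) (by decide +kernel)

theorem s55 : Seg 54319 55381 998177761601 1000000000000 :=
  segB_spec (l := D55) (by decide +kernel)

theorem s56 : Seg 55381 56473 998213785789 1000000000000 :=
  segB_spec (l := D56) (by decide +kernel)

theorem s57 : Seg 56473 57467 998245675055 1000000000000 :=
  segB_spec (l := D57) (by decide +kernel)

theorem s58 : Seg 57467 58543 998277625651 1000000000000 :=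
  segB_spec (l := D58) (by decide +kernel)

theorem s59 : Seg 58543 59617 998309211322 1000000000000 :=
  segB_spec (l := D59) (by decide +kernel)

theorem SF4 : Seg 46687 59617 977579645496 1000000000000 :=
  (((((((((((s48.merge s49 (by norm_num) (by norm_num)).merge s50 (by norm_num) (by norm_num)).merge s51 (by norm_num) (by norm_num)).merge s52 (by norm_num) (by norm_num)).merge s53 (by norm_num) (by norm_num)).merge s54 (by norm_num) (by norm_num)).merge s55 (by norm_num) (by norm_num)).merge s56 (by norm_num) (by norm_num)).merge s57 (by norm_num) (by norm_num)).merge s58 (by norm_num) (by norm_num)).merge s59 (by norm_num) (by norm_num)).weaken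
    (by norm_num) (by norm_num)

end Pool.Agent.Sun64
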