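import Pool.Agent.Sun64.Data5
import Pool.Agent.Sun64.Seg

namespace Pool.Agent.Sun64

theorem s60 : Seg 59617 60761 998340001669 1000000000000 :=
  segB_spec (l := D60) (by decide +kernel)

theorem s61 : Seg 60761 61933 998371356190 1000000000000 :=
  segB_spec (l := D61) (by decide +kernel)

theorem s62 : Seg 61933 63073 998401046701 1000000000000 :=
  segB_spec (l := D62) (by decide +kernel)

theorem s63 : Seg 63073 64151 998428939126 1000000000000 :=
  segB_spec (l := D63) (by decide +kernel)

theorem s64 : Seg 64151 65323 998456967973 1000000000000 :=
  segB_spec (l := D64) (by decide +kernel)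

theorem s65 : Seg 65323 66449 998482609338 1000000000000 :=
  segB_spec (l := D65) (by decide +kernel)

theorem s66 : Seg 66449 67499 998508301578 1000000000000 :=
  segB_spec (l := D66) (by decide +kernel)

theorem s67 : Seg 67499 68669 998531772323 1000000000000 :=
  segB_spec (l := D67) (by decide +kernel)

theorem s68 : Seg 68669 69857 998556880160 1000000000000 :=
  segB_spec (l := D68) (by decide +kernel)

theorem s69 : Seg 69857 70949 998580613009 1000000000000 :=
  segB_spec (l := D69) (by decide +kernel)

theorem s70 : Seg 70949 71983 998601574409 1000000000000 :=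
  segB_spec (l := D70) (by decide +kernel)

theorem s71 : Seg 71983 73061 998622243995 1000000000000 :=
  segB_spec (l := D71) (by decide +kernel)

theorem SF5 : Seg 59617 73061 982031953843 1000000000000 :=
  (((((((((((s60.merge s61 (by norm_num) (by norm_num)).merge s62 (by norm_num) (by norm_num)).merge s63 (by norm_num) (by norm_num)).merge s64 (by norm_num) (by norm_num)).merge s65 (by norm_num) (by norm_num)).merge s66 (by norm_num) (by norm_num)).merge s67 (by norm_num) (by norm_num)).merge s68 (by norm_num) (by norm_num)).merge s69 (by norm_num) (by norm_num)).merge s70 (by norm_num) (by norm_num)).merge s71 (by norm_num) (by norm_num)).weaken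
    (by norm_num) (by norm_num)

end Pool.Agent.Sun64
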