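import Pool.Agent.Sun64.Data6
import Pool.Agent.Sun64.Seg

namespace Pool.Agent.Sun64

theorem s72 : Seg 73061 74231 998643853220 1000000000000 :=
  segB_spec (l := D72) (by decide +kernel)

theorem s73 : Seg 74231 75353 998663960090 1000000000000 :=
  segB_spec (l := D73) (by decide +kernel)

theorem s74 : Seg 75353 76493 998683559334 1000000000000 :=
  segB_spec (l := D74) (by decide +kernel)

theorem s75 : Seg 76493 77587 998703372406 1000000000000 :=
  segB_spec (l := D75) (by decide +kernel)

theorem s76 : Seg 77587 78779 998721333029 1000000000000 :=
  segB_spec (l := D76) (by decide +kernel)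

theorem s77 : Seg 78779 79873 998740359313 1000000000000 :=
  segB_spec (l := D77) (by decide +kernel)

theorem s78 : Seg 79873 80989 998757691219 1000000000000 :=
  segB_spec (l := D78) (by decide +kernel)

theorem s79 : Seg 80989 82039 998774093065 1000000000000 :=
  segB_spec (l := D79) (by decide +kernel)

theorem s80 : Seg 82039 83227 998790437170 1000000000000 :=
  segB_spec (l := D80) (by decide +kernel)

theorem s81 : Seg 83227 84391 998807443177 1000000000000 :=
  segB_spec (l := D81) (by decide +kernel)

theorem s82 : Seg 84391 85531 998823627826 1000000000000 :=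
  segB_spec (l := D82) (by decide +kernel)

theorem s83 : Seg 85531 86689 998839415365 1000000000000 :=
  segB_spec (l := D83) (by decide +kernel)

theorem SF6 : Seg 73061 86689 985052515609 1000000000000 :=
  (((((((((((s72.merge s73 (by norm_num) (by norm_num)).merge s74 (by norm_num) (by norm_num)).merge s75 (by norm_num) (by norm_num)).merge s76 (by norm_num) (by norm_num)).merge s77 (by norm_num) (by norm_num)).merge s78 (by norm_num) (by norm_num)).merge s79 (by norm_num) (by norm_num)).merge s80 (by norm_num) (by norm_num)).merge s81 (by norm_num) (by norm_num)).merge s82 (by norm_num) (by norm_num)).merge s83 (by norm_num) (by norm_num)).weaken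
    (by norm_num) (by norm_num)

end Pool.Agent.Sun64
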