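import Pool.Agent.Sun64.Data7
import Pool.Agent.Sun64.Seg

namespace Pool.Agent.Sun64

theorem s84 : Seg 86689 87793 998854815445 1000000000000 :=
  segB_spec (l := D84) (by decide +kernel)

theorem s85 : Seg 87793 89051 998870067413 1000000000000 :=
  segB_spec (l := D85) (by decide +kernel)

theorem s86 : Seg 89051 90073 998884350836 1000000000000 :=
  segB_spec (l := D86) (by decide +kernel)

theorem s87 : Seg 90073 91249 998897756083 1000000000000 :=
  segB_spec (l := D87) (by decide +kernel)

theorem s88 : Seg 91249 92387 998911849045 1000000000000 :=
  segB_spec (l := D88) (by decide +kernel)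

theorem s89 : Seg 92387 93479 998924346471 1000000000000 :=
  segB_spec (l := D89) (by decide +kernel)

theorem s90 : Seg 93479 94603 998937410386 1000000000000 :=
  segB_spec (l := D90) (by decide +kernel)

theorem s91 : Seg 94603 95717 998949853012 1000000000000 :=
  segB_spec (l := D91) (by decide +kernel)

theorem s92 : Seg 95717 96851 998961981736 1000000000000 :=
  segB_spec (l := D92) (by decide +kernel)

theorem s93 : Seg 96851 98081 998974700520 1000000000000 :=
  segB_spec (l := D93) (by decide +kernel)

theorem s94 : Seg 98081 99223 998987199687 1000000000000 :=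
  segB_spec (l := D94) (by decide +kernel)

theorem s95 : Seg 99223 100403 998998656892 1000000000000 :=
  segB_spec (l := D95) (by decide +kernel)

theorem SF7 : Seg 86689 100403 987228352222 1000000000000 :=
  (((((((((((s84.merge s85 (by norm_num) (by norm_num)).merge s86 (by norm_num) (by norm_num)).merge s87 (by norm_num) (by norm_num)).merge s88 (by norm_num) (by norm_num)).merge s89 (by norm_num) (by norm_num)).merge s90 (by norm_num) (by norm_num)).merge s91 (by norm_num) (by norm_num)).merge s92 (by norm_num) (by norm_num)).merge s93 (by norm_num) (by norm_num)).merge s94 (by norm_num) (by norm_num)).merge s95 (by norm_num) (by norm_num)).weaken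
    (by norm_num) (by norm_num)

end Pool.Agent.Sun64
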