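import Pool.Agent.Sun64.Data8
import Pool.Agent.Sun64.Seg

namespace Pool.Agent.Sun64

theorem s96 : Seg 100403 101533 999010378327 1000000000000 :=
  segB_spec (l := D96) (by decide +kernel)

theorem s97 : Seg 101533 102607 999020839381 1000000000000 :=
  segB_spec (l := D97) (by decide +kernel)

theorem s98 : Seg 102607 103951 999032243301 1000000000000 :=
  segB_spec (l := D98) (by decide +kernel)

theorem s99 : Seg 103951 105019 999043231036 1000000000000 :=
  segB_spec (l := D99) (by decide +kernel)

theorem s100 : Seg 105019 106243 999053783043 1000000000000 :=
  segB_spec (l := D100) (by decide +kernel)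

theorem s101 : Seg 106243 107339 999063794065 1000000000000 :=
  segB_spec (l := D101) (by decide +kernel)

theorem s102 : Seg 107339 108553 999074434247 1000000000000 :=
  segB_spec (l := D102) (by decide +kernel)

theorem s103 : Seg 108553 109661 999084060863 1000000000000 :=
  segB_spec (l := D103) (by decide +kernel)

theorem s104 : Seg 109661 110909 999093788949 1000000000000 :=
  segB_spec (l := D104) (by decide +kernel)

theorem s105 : Seg 110909 112069 999103405048 1000000000000 :=
  segB_spec (l := D105) (by decide +kernel)

theorem s106 : Seg 112069 113167 999112689790 1000000000000 :=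
  segB_spec (l := D106) (by decide +kernel)

theorem s107 : Seg 113167 114451 999121751298 1000000000000 :=
  segB_spec (l := D107) (by decide +kernel)

theorem SF8 : Seg 100403 114451 988871559826 1000000000000 :=
  (((((((((((s96.merge s97 (by norm_num) (by norm_num)).merge s98 (by norm_num) (by norm_num)).merge s99 (by norm_num) (by norm_num)).merge s100 (by norm_num) (by norm_num)).merge s101 (by norm_num) (by norm_num)).merge s102 (by norm_num) (by norm_num)).merge s103 (by norm_num) (by norm_num)).merge s104 (by norm_num) (by norm_num)).merge s105 (by norm_num) (by norm_num)).merge s106 (by norm_num) (by norm_num)).merge s107 (by norm_num) (by norm_num)).weaken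
    (by norm_num) (by norm_num)

end Pool.Agent.Sun64
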