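import Pool.Agent.Sun64.Data9
import Pool.Agent.Sun64.Seg

namespace Pool.Agent.Sun64

theorem s108 : Seg 114451 115631 999131090086 1000000000000 :=
  segB_spec (l := D108) (by decide +kernel)

theorem s109 : Seg 115631 116791 999139553884 1000000000000 :=
  segB_spec (l := D109) (by decide +kernel)

theorem s110 : Seg 116791 117889 999148252744 1000000000000 :=
  segB_spec (l := D110) (by decide +kernel)

theorem s111 : Seg 117889 119101 999156574571 1000000000000 :=
  segB_spec (l := D111) (by decide +kernel)

theorem s112 : Seg 119101 119993 999364651085 1000000000000 :=
  segB_spec (l := D112) (by decide +kernel)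

theorem SF9 : Seg 114451 119993 995946690432 1000000000000 :=
  ((((s108.merge s109 (by norm_num) (by norm_num)).merge s110 (by norm_num) (by norm_num)).merge s111 (by norm_num) (by norm_num)).merge s112 (by norm_num) (by norm_num)).weaken
    (by norm_num) (by norm_num)

end Pool.Agent.Sun64
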