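import Pool.Agent.Sun64.Dens0
import Pool.Agent.Sun64.Dens1
import Pool.Agent.Sun64.Dens2
import Pool.Agent.Sun64.Dens3
import Pool.Agent.Sun64.Dens4
import Pool.Agent.Sun64.Dens5
import Pool.Agent.Sun64.Dens6
import Pool.Agent.Sun64.Dens7
import Pool.Agent.Sun64.Dens8
import Pool.Agent.Sun64.Dens9

namespace Pool.Agent.Sun64

theorem sb : Seg 0 97 120317290475 1000000000000 :=
  segB_spec (l := PL.map (fun q => Ent.mk q 0 0 0 0 0 0)) (by decide +kernel)

theorem seg_all : Seg 0 119993 4 83 :=
  ((((((((((sb.merge SF0 (by norm_num) (by norm_num)).merge SF1 (by norm_num) (by norm_num)).merge SF2 (by norm_num) (by norm_num)).merge SF3 (by norm_num) (by norm_num)).merge SF4 (by norm_num) (by norm_num)).merge SF5 (by norm_num) (by norm_num)).merge SF6 (by norm_num) (by norm_num)).merge SF7 (by norm_num) (by norm_num)).merge SF8 (by norm_num) (by norm_num)).merge SF9 (by norm_num) (by norm_num)).weaken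
    (by norm_num) (by norm_num)

end Pool.Agent.Sun64
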