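import Pool.Agent.Sun64.Data0
import Pool.Agent.Sun64.Data1
import Pool.Agent.Sun64.Data2
import Pool.Agent.Sun64.Data3
import Pool.Agent.Sun64.Data4
import Pool.Agent.Sun64.Data5
import Pool.Agent.Sun64.Data6
import Pool.Agent.Sun64.Data7
import Pool.Agent.Sun64.Data8
import Pool.Agent.Sun64.Data9

namespace Pool.Agent.Sun64

theorem good_prime (q : ℕ) (hq : q.Prime) (h3 : 3 ≤ q) (h5 : q ≠ 5) (hB : q ≤ 120000) : GoodM q := by
  rcases le_or_gt q 97 with h | h
  · have hm : ∀ q ∈ List.range 98, 3 ≤ q → q ≠ 5 → q ∈ GB ∨ hasDiv q = true := by decide +kernel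
    rcases hm q (List.mem_range.2 (by omega)) h3 h5 with h1 | h1
    · exact GB_good q h1
    · exact absurd hq (not_prime_of_hasDiv h1)
  rcases le_or_gt q 9931 with h | h
  · exact R0 q hq (by omega) h
  rcases le_or_gt q 21599 with h | h
  · exact R1 q hq (by omega) h
  rcases le_or_gt q 33851 with h | h
  · exact R2 q hq (by omega) h
  rcases le_or_gt q 46687 with h | h
  · exact R3 q hq (by omega) h
  rcases le_or_gt q 59617 with h | h
  · exact R4 q hq (by omega) h
  rcases le_or_gt q 73061 with h | h
  · exact R5 q hq (by omega) h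
  rcases le_or_gt q 86689 with h | h
  · exact R6 q hq (by omega) h
  rcases le_or_gt q 100403 with h | h
  · exact R7 q hq (by omega) h
  rcases le_or_gt q 114451 with h | h
  · exact R8 q hq (by omega) h
  rcases le_or_gt q 119993 with h | h
  · exact R9 q hq (by omega) h
  exact absurd hq (compIv_spec 7 119994 (by decide +kernel) q (by omega) (by omega))

end Pool.Agent.Sun64
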