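import Pool.Agent.Sun64.Core

namespace Pool.Agent.Sun64

/-- certificates for the primes below 100 and for 16, 25 -/
def baseL : List (ℕ × Tr) := [
  (3, .mv 2 (.leaf 1) (.br 5 (.leaf 1) (.stop))),
  (7, .br 2 (.leaf 3) (.leaf 1)),
  (11, .br 2 (.mv 5 (.leaf 1) (.mv 13 (.leaf 13) (.br 11 (.leaf 22) (.leaf 22)))) (.leaf 3)),
  (13, .br 2 (.leaf 1) (.br 5 (.leaf 3) (.stop))),
  (17, .br 2 (.mv 5 (.leaf 5) (.leaf 7)) (.leaf 1)),
  (19, .mv 2 (.leaf 2) (.mv 37 (.leaf 1) (.br 5 (.leaf 75) (.stop)))),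
  (23, .br 2 (.leaf 4) (.leaf 6)),
  (29, .br 2 (.leaf 12) (.leaf 2)),
  (31, .br 2 (.leaf 4) (.leaf 12)),
  (37, .br 2 (.br 5 (.leaf 5) (.leaf 12)) (.leaf 3)),
  (41, .br 2 (.leaf 3) (.leaf 4)),
  (43, .br 2 (.leaf 16) (.leaf 6)),
  (47, .mv 2 (.leaf 21) (.leaf 3)),
  (53, .br 2 (.leaf 14) (.leaf 2)),
  (59, .br 2 (.leaf 2) (.leaf 8)),
  (61, .br 2 (.leaf 9) (.leaf 4)),
  (67, .br 2 (.leaf 3) (.leaf 4)),
  (71, .br 2 (.leaf 3) (.leaf 17)),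
  (73, .br 2 (.leaf 19) (.leaf 16)),
  (79, .br 2 (.leaf 6) (.leaf 3)),
  (83, .br 2 (.leaf 19) (.leaf 32)),
  (89, .br 2 (.leaf 16) (.br 5 (.leaf 4) (.stop))),
  (97, .br 2 (.leaf 6) (.leaf 1)),
  (16, .leaf 7),
  (25, .br 2 (.leaf 6) (.stop))]

theorem baseL_ok : chkBase [] baseL = true := by decide +kernel

theorem base_good : ∀ x ∈ baseL, GoodM x.1 :=
  chkBase_spec baseL [] (by simp) baseL_ok

theorem GB_good : ∀ g ∈ GB, GoodM g := by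
  intro g hg
  have h : ∃ x ∈ baseL, x.1 = g := by
    have : ∀ g ∈ GB, ∃ x ∈ baseL, x.1 = g := by decide +kernel
    exact this g hg
  obtain ⟨x, hx, rfl⟩ := h
  exact base_good x hx

theorem good16 : GoodM 16 := base_good (16, .leaf 7) (by simp [baseL])

theorem good25 : GoodM 25 := base_good (25, .br 2 (.leaf 6) .stop) (by simp [baseL])

end Pool.Agent.Sun64
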