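import Mathlib

/-! Covering certificates for squares of the form phi(k)phi(n-k). -/

namespace Pool.Agent.Sun64

open Nat

/-- there is `0 < k < n/2` with `phi(k) * phi(n-k)` a perfect square -/
def Good1 (n : ℕ) : Prop := ∃ k, 0 < k ∧ 2 * k < n ∧ IsSquare (φ k * φ (n - k))

/-- every multiple of `d` above `8` is good -/
def GoodM (d : ℕ) : Prop := ∀ n, 8 < n → d ∣ n → Good1 n

/-- the primes below 100 -/
def PL : List ℕ := [2, 3, 5, 7, 11, 13, 17, 19, 23, 29, 31, 37, 41, 43, 47, 53, 59, 61, 67, 71,
  73, 79, 83, 89, 97]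

theorem PL_prime : ∀ p ∈ PL, p.Prime := by
  intro p hp
  simp only [PL, List.mem_cons, List.not_mem_nil, or_false] at hp
  rcases hp with h | h | h | h | h | h | h | h | h | h | h | h | h | h | h | h | h | h | h | h |
    h | h | h | h | h <;> subst h <;> norm_num

/-- trial division by the primes of a list -/
def fac : ℕ → List ℕ → ℕ → List ℕ
  | 0, _, _ => []
  | _ + 1, [], _ => []
  | f + 1, p :: ps, a =>
    match Nat.beq a 1 with
    | true => []
    | false =>
      match Nat.beq (a % p) 0 with
      | true => p :: fac f (p :: ps) (a / p)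
      | false => fac f ps a

theorem fac_mem : ∀ (f : ℕ) (L : List ℕ) (a : ℕ), ∀ x ∈ fac f L a, x ∈ L := by
  intro f
  induction f with
  | zero => intro L a x hx; simp [fac] at hx
  | succ f ih =>
    intro L a x hx
    cases L with
    | nil => simp [fac] at hx
    | cons p ps =>
      simp only [fac] at hx
      split at hx
      · simp at hx
      · split at hx
        · rcases List.mem_cons.1 hx with h1 | h1
          · exact List.mem_cons.2 (Or.inl h1)
          · exact ih _ _ _ h1
        · exact List.mem_cons.2 (Or.inr (ih _ _ _ hx))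

/-- what is known about `p ∣ m` -/
def stat (G : List ℕ) (L : List (ℕ × Bool)) (p : ℕ) : Option Bool :=
  if G.elem p then some false else L.lookup p

/-- the number `c` with `phi(l.prod * m) = c * phi(m)` -/
def coef (G : List ℕ) (L : List (ℕ × Bool)) : List ℕ → Option ℕ
  | [] => some 1
  | p :: r =>
    match coef G L r with
    | none => none
    | some c =>
      if r.elem p then some (p * c)
      else match stat G L p with
        | some true => some (p * c)
        | some false => some ((p - 1) * c)
        | none => none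

/-- hypotheses on `m` recorded by `G` and `L` -/
structure Hyp (G : List ℕ) (L : List (ℕ × Bool)) (m : ℕ) : Prop where
  pos : 0 < m
  g : ∀ g ∈ G, ¬ g ∣ m
  key : ∀ x ∈ L, x.1.Prime
  l : ∀ x ∈ L, (x.1 ∣ m ↔ x.2 = true)

theorem lookup_mem (p : ℕ) (v : Bool) : ∀ (L : List (ℕ × Bool)), L.lookup p = some v → (p, v) ∈ L := by
  intro L
  induction L with
  | nil => intro h; simp [List.lookup] at h
  | cons x xs ih =>
    intro h
    obtain ⟨a, b⟩ := x
    simp only [List.lookup] at h
    split at h
    · rename_i h1
      have : p = a := by simpa using h1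
      subst this
      simp only [Option.some.injEq] at h
      subst h
      exact List.mem_cons_self
    · exact List.mem_cons.2 (Or.inr (ih h))

theorem stat_spec {G : List ℕ} {L : List (ℕ × Bool)} {m : ℕ} (H : Hyp G L m) {p : ℕ} {v : Bool}
    (h : stat G L p = some v) : (p ∣ m ↔ v = true) := by
  unfold stat at h
  split_ifs at h with h1
  · simp only [Option.some.injEq] at h
    subst h
    have : p ∈ G := by simpa using h1
    simpa using H.g p this
  · exact H.l _ (lookup_mem p v L h)

theorem coef_spec {G : List ℕ} {L : List (ℕ × Bool)} {m : ℕ} (H : Hyp G L m) :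
    ∀ (l : List ℕ) (c : ℕ), (∀ p ∈ l, p.Prime) → coef G L l = some c →
      φ (l.prod * m) = c * φ m := by
  intro l
  induction l with
  | nil => intro c _ h; simp only [coef, Option.some.injEq] at h; subst h; simp
  | cons p r ih =>
    intro c hp h
    have hpp : p.Prime := hp p List.mem_cons_self
    have hr : ∀ x ∈ r, x.Prime := fun x hx => hp x (List.mem_cons.2 (Or.inr hx))
    simp only [coef] at h
    cases hc : coef G L r with
    | none => rw [hc] at h; simp at h
    | some c' =>
      rw [hc] at h
      simp only at h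
      have hi := ih c' hr hc
      have hdiv : p ∣ r.prod ↔ p ∈ r := by
        constructor
        · intro hd
          exact mem_list_primes_of_dvd_prod hpp.prime (fun q hq => (hr q hq).prime) hd
        · intro hm; exact List.dvd_prod hm
      have e1 : (p :: r).prod * m = p * (r.prod * m) := by rw [List.prod_cons]; ring
      rw [e1]
      by_cases h1 : r.elem p = true
      · rw [if_pos h1] at h
        simp only [Option.some.injEq] at h
        have hm : p ∈ r := by simpa using h1
        have hd : p ∣ r.prod * m := Dvd.dvd.mul_right (hdiv.2 hm) m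
        rw [Nat.totient_mul_of_prime_of_dvd hpp hd, hi, ← h]; ring
      · rw [if_neg h1] at h
        have hm : p ∉ r := by simpa using h1
        cases hs : stat G L p with
        | none => rw [hs] at h; simp at h
        | some v =>
          rw [hs] at h
          have hst := stat_spec H hs
          cases v with
          | true =>
            simp only [Option.some.injEq] at h
            have hd : p ∣ r.prod * m := Dvd.dvd.mul_left (hst.2 rfl) _
            rw [Nat.totient_mul_of_prime_of_dvd hpp hd, hi, ← h]; ring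
          | false =>
            simp only [Option.some.injEq] at h
            have hnd : ¬ p ∣ r.prod * m := by
              intro hd
              rcases (Nat.Prime.dvd_mul hpp).1 hd with h2 | h2
              · exact hm (hdiv.1 h2)
              · have := hst.1 h2
                simp at this
            rw [Nat.totient_mul_of_prime_of_not_dvd hpp hnd, hi, ← h]; ring

/-- integer square root by bits -/
def sq : ℕ → ℕ → ℕ → ℕ
  | 0, r, _ => r
  | i + 1, r, n => if (r + 2 ^ i) * (r + 2 ^ i) ≤ n then sq i (r + 2 ^ i) n else sq i r n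

/-- certificate trees -/
inductive Tr where
  | leaf (a : ℕ)
  | stop
  | br (p : ℕ) (s t : Tr)
  | mv (p : ℕ) (s t : Tr)

/-- the pair `(a, s - a)` works for all `m` described by `G`, `L` -/
def chkLeaf (G : List ℕ) (L : List (ℕ × Bool)) (a s : ℕ) : Bool :=
  let fa := fac 60 PL a
  let fb := fac 60 PL (s - a)
  decide (0 < a) && decide (2 * a < s) && decide (fa.prod = a) && decide (fb.prod = s - a) &&
    match coef G L fa, coef G L fb with
    | some x, some y => decide (sq 30 0 (x * y) * sq 30 0 (x * y) = x * y)
    | _, _ => false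

/-- the tree works -/
def chk (G : List ℕ) : Tr → ℕ → List (ℕ × Bool) → Bool
  | .leaf a, s, L => chkLeaf G L a s
  | .stop, s, L => G.any (fun g => s % g == 0) ||
      ((s % 2 == 0 || L.lookup 2 == some true) && (s % 5 == 0 || L.lookup 5 == some true))
  | .br p t u, s, L => PL.elem p && chk G t s ((p, false) :: L) && chk G u s ((p, true) :: L)
  | .mv p t u, s, L => PL.elem p && chk G t s ((p, false) :: L) &&
      chk G u (s * p) (L.filter (fun x => x.1 != p))

theorem chkLeaf_spec {G : List ℕ} {L : List (ℕ × Bool)} {m : ℕ} (H : Hyp G L m) {a s : ℕ}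
    (h : chkLeaf G L a s = true) : Good1 (s * m) := by
  unfold chkLeaf at h
  simp only [Bool.and_eq_true, decide_eq_true_eq] at h
  obtain ⟨⟨⟨⟨h1, h2⟩, h3⟩, h4⟩, h5⟩ := h
  cases hx : coef G L (fac 60 PL a) with
  | none => rw [hx] at h5; simp at h5
  | some x =>
    cases hy : coef G L (fac 60 PL (s - a)) with
    | none => rw [hx, hy] at h5; simp at h5
    | some y =>
      rw [hx, hy] at h5
      simp only [decide_eq_true_eq] at h5
      have e1 := coef_spec H _ x (fun p hp => PL_prime p (fac_mem _ _ _ p hp)) hx
      have e2 := coef_spec H _ y (fun p hp => PL_prime p (fac_mem _ _ _ p hp)) hy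
      rw [h3] at e1
      rw [h4] at e2
      refine ⟨a * m, Nat.mul_pos h1 H.pos, ?_, ?_⟩
      · have := Nat.mul_lt_mul_of_pos_right h2 H.pos
        calc 2 * (a * m) = 2 * a * m := by ring
          _ < s * m := this
      · have e3 : s * m - a * m = (s - a) * m := (Nat.sub_mul s a m).symm
        rw [e3, e1, e2]
        refine ⟨sq 30 0 (x * y) * φ m, ?_⟩
        calc x * φ m * (y * φ m) = x * y * (φ m * φ m) := by ring
          _ = sq 30 0 (x * y) * sq 30 0 (x * y) * (φ m * φ m) := by rw [h5]
          _ = _ := by ring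

theorem chk_spec {G : List ℕ} (hG : ∀ g ∈ G, GoodM g) (h10 : GoodM 10) :
    ∀ (t : Tr) (s : ℕ) (L : List (ℕ × Bool)) (m : ℕ), Hyp G L m → 8 < s * m →
      chk G t s L = true → Good1 (s * m) := by
  intro t
  induction t with
  | leaf a => intro s L m H _ h; exact chkLeaf_spec H h
  | stop =>
    intro s L m H h8 h
    simp only [chk, Bool.or_eq_true, Bool.and_eq_true, List.any_eq_true, beq_iff_eq] at h
    rcases h with ⟨g, hg, hd⟩ | ⟨h2, h5⟩
    · exact hG g hg _ h8 (Dvd.dvd.mul_right (Nat.dvd_of_mod_eq_zero hd) m)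
    · have h2' : 2 ∣ s * m := by
        rcases h2 with h2 | h2
        · exact Dvd.dvd.mul_right (Nat.dvd_of_mod_eq_zero h2) m
        · exact Dvd.dvd.mul_left ((H.l _ (lookup_mem _ _ _ h2)).2 rfl) s
      have h5' : 5 ∣ s * m := by
        rcases h5 with h5 | h5
        · exact Dvd.dvd.mul_right (Nat.dvd_of_mod_eq_zero h5) m
        · exact Dvd.dvd.mul_left ((H.l _ (lookup_mem _ _ _ h5)).2 rfl) s
      have : 10 ∣ s * m := by
        have := Nat.Coprime.mul_dvd_of_dvd_of_dvd (by norm_num : Nat.Coprime 2 5) h2' h5'
        simpa using this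
      exact h10 _ h8 this
  | br p t u iht ihu =>
    intro s L m H h8 h
    simp only [chk, Bool.and_eq_true] at h
    obtain ⟨⟨hp, ht⟩, hu⟩ := h
    have hpp : p.Prime := PL_prime p (by simpa using hp)
    by_cases hd : p ∣ m
    · refine ihu s _ m ⟨H.pos, H.g, ?_, ?_⟩ h8 hu
      · intro x hx
        rcases List.mem_cons.1 hx with h1 | h1
        · rw [h1]; exact hpp
        · exact H.key x h1
      · intro x hx
        rcases List.mem_cons.1 hx with h1 | h1
        · rw [h1]; simpa using hd
        · exact H.l x h1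
    · refine iht s _ m ⟨H.pos, H.g, ?_, ?_⟩ h8 ht
      · intro x hx
        rcases List.mem_cons.1 hx with h1 | h1
        · rw [h1]; exact hpp
        · exact H.key x h1
      · intro x hx
        rcases List.mem_cons.1 hx with h1 | h1
        · rw [h1]; simpa using hd
        · exact H.l x h1
  | mv p t u iht ihu =>
    intro s L m H h8 h
    simp only [chk, Bool.and_eq_true] at h
    obtain ⟨⟨hp, ht⟩, hu⟩ := h
    have hpp : p.Prime := PL_prime p (by simpa using hp)
    by_cases hd : p ∣ m
    · obtain ⟨m', rfl⟩ := hd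
      have hm' : 0 < m' := Nat.pos_of_mul_pos_left H.pos |> fun h => by
        rcases Nat.eq_zero_or_pos m' with h0 | h0
        · subst h0; simpa using H.pos
        · exact h0
      have e : s * (p * m') = s * p * m' := by ring
      rw [e] at h8 ⊢
      refine ihu (s * p) _ m' ⟨hm', ?_, ?_, ?_⟩ h8 hu
      · intro g hg hdg
        exact H.g g hg (Dvd.dvd.mul_left hdg p)
      · intro x hx
        exact H.key x (List.mem_of_mem_filter hx)
      · intro x hx
        have hx1 := List.mem_of_mem_filter hx
        have hx2 : x.1 ≠ p := by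
          have := List.of_mem_filter hx
          simpa using this
        rw [← H.l x hx1]
        constructor
        · intro h1; exact Dvd.dvd.mul_left h1 p
        · intro h1
          rcases (Nat.Prime.dvd_mul (H.key x hx1)).1 h1 with h2 | h2
          · exact absurd ((Nat.prime_dvd_prime_iff_eq (H.key x hx1) hpp).1 h2) hx2
          · exact h2
    · refine iht s _ m ⟨H.pos, H.g, ?_, ?_⟩ h8 ht
      · intro x hx
        rcases List.mem_cons.1 hx with h1 | h1
        · rw [h1]; exact hpp
        · exact H.key x h1
      · intro x hx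
        rcases List.mem_cons.1 hx with h1 | h1
        · rw [h1]; simpa using hd
        · exact H.l x h1

theorem good_of_chk {G : List ℕ} (hG : ∀ g ∈ G, GoodM g) (h10 : GoodM 10) {t : Tr} {q : ℕ}
    (h : chk G t q [] = true) : GoodM q := by
  intro n h8 hq
  obtain ⟨m, rfl⟩ := hq
  have hm : 0 < m := by
    rcases Nat.eq_zero_or_pos m with h0 | h0
    · subst h0; simp at h8
    · exact h0
  by_cases hx : ∃ g ∈ G, g ∣ m
  · obtain ⟨g, hg, hd⟩ := hx
    exact hG g hg _ h8 (Dvd.dvd.mul_left hd q)
  · push Not at hx
    exact chk_spec hG h10 t q [] m ⟨hm, hx, by simp, by simp⟩ h8 h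

theorem good10 : GoodM 10 := by
  intro n h8 hq
  obtain ⟨t, rfl⟩ := hq
  have ht : 0 < t := by omega
  refine ⟨2 * t, by omega, by omega, ?_⟩
  have e : 10 * t - 2 * t = 2 * (2 * (2 * t)) := by omega
  rw [e, Nat.totient_mul_of_prime_of_dvd Nat.prime_two (Dvd.intro _ rfl),
    Nat.totient_mul_of_prime_of_dvd Nat.prime_two (Dvd.intro _ rfl)]
  exact ⟨2 * φ (2 * t), by ring⟩

/-- check a list of moduli with a growing list of good moduli -/
def chkBase : List ℕ → List (ℕ × Tr) → Bool
  | _, [] => true
  | G, (q, t) :: r => chk G t q [] && chkBase (q :: G) r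

theorem chkBase_spec : ∀ (l : List (ℕ × Tr)) (G : List ℕ), (∀ g ∈ G, GoodM g) →
    chkBase G l = true → ∀ x ∈ l, GoodM x.1 := by
  intro l
  induction l with
  | nil => intro G _ _ x hx; simp at hx
  | cons y ys ih =>
    intro G hG h x hx
    obtain ⟨q, t⟩ := y
    simp only [chkBase, Bool.and_eq_true] at h
    have hq : GoodM q := good_of_chk hG good10 h.1
    rcases List.mem_cons.1 hx with h1 | h1
    · rw [h1]; exact hq
    · refine ih (q :: G) ?_ h.2 x h1
      intro g hg
      rcases List.mem_cons.1 hg with h2 | h2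
      · rw [h2]; exact hq
      · exact hG g h2

/-- the good primes below 100 -/
def GB : List ℕ := [3, 7, 11, 13, 17, 19, 23, 29, 31, 37, 41, 43, 47, 53, 59, 61, 67, 71,
  73, 79, 83, 89, 97]

/-- leaf check with a square root supplied -/
def leafR (L : List (ℕ × Bool)) (a b r : ℕ) : Bool :=
  match fac 60 PL a, fac 60 PL b with
  | fa, fb =>
    Nat.beq fa.prod a && Nat.beq fb.prod b &&
      match coef GB L fa, coef GB L fb with
      | some x, some y => Nat.beq (x * y) (r * r)
      | _, _ => false

theorem leafR_spec {L : List (ℕ × Bool)} {m : ℕ} (H : Hyp GB L m) {a b r : ℕ}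
    (ha : 0 < a) (hab : a < b) (h : leafR L a b r = true) : Good1 ((a + b) * m) := by
  unfold leafR at h
  simp only [Bool.and_eq_true] at h
  obtain ⟨⟨h3, h4⟩, h5⟩ := h
  have h3 := Nat.eq_of_beq_eq_true h3
  have h4 := Nat.eq_of_beq_eq_true h4
  cases hx : coef GB L (fac 60 PL a) with
  | none => rw [hx] at h5; simp at h5
  | some x =>
    cases hy : coef GB L (fac 60 PL b) with
    | none => rw [hx, hy] at h5; simp at h5
    | some y =>
      rw [hx, hy] at h5
      have h5 : x * y = r * r := Nat.eq_of_beq_eq_true h5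
      have e1 := coef_spec H _ x (fun p hp => PL_prime p (fac_mem _ _ _ p hp)) hx
      have e2 := coef_spec H _ y (fun p hp => PL_prime p (fac_mem _ _ _ p hp)) hy
      rw [h3] at e1
      rw [h4] at e2
      refine ⟨a * m, Nat.mul_pos ha H.pos, ?_, ?_⟩
      · have h2 : 2 * a < a + b := by omega
        have := Nat.mul_lt_mul_of_pos_right h2 H.pos
        calc 2 * (a * m) = 2 * a * m := by ring
          _ < (a + b) * m := this
      · have e3 : (a + b) * m - a * m = b * m := by
          rw [Nat.add_mul]; exact Nat.add_sub_cancel_left ..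
        rw [e3, e1, e2]
        refine ⟨r * φ m, ?_⟩
        calc x * φ m * (y * φ m) = x * y * (φ m * φ m) := by ring
          _ = r * r * (φ m * φ m) := by rw [h5]
          _ = _ := by ring

/-- one entry `(q, a₁, r₁, a₂, r₂, a₃, r₃)` of the second stage -/
structure Ent where
  q : ℕ
  a₁ : ℕ
  r₁ : ℕ
  a₂ : ℕ
  r₂ : ℕ
  a₃ : ℕ
  r₃ : ℕ

/-- check of an entry -/
def chk3 (x : Ent) : Bool :=
  Nat.ble (2 * x.a₁ + 1) x.q && Nat.ble (2 * x.a₂ + 1) x.q && Nat.ble (2 * x.a₃ + 1) x.q &&
  Nat.ble 1 x.a₁ && Nat.ble 1 x.a₂ && Nat.ble 1 x.a₃ &&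
  leafR [(5, false), (2, false)] x.a₁ (x.q - x.a₁) x.r₁ &&
  leafR [(5, true), (2, false)] x.a₂ (x.q - x.a₂) x.r₂ &&
  leafR [(5, false), (2, true)] x.a₃ (x.q - x.a₃) x.r₃

theorem chk3_spec (hG : ∀ g ∈ GB, GoodM g) {x : Ent} (h : chk3 x = true) : GoodM x.q := by
  simp only [chk3, Bool.and_eq_true, Nat.ble_eq] at h
  obtain ⟨⟨⟨⟨⟨⟨⟨⟨k1, k2⟩, k3⟩, p1⟩, p2⟩, p3⟩, l1⟩, l2⟩, l3⟩ := h
  intro n h8 hq
  obtain ⟨m, rfl⟩ := hq
  have hm : 0 < m := by
    rcases Nat.eq_zero_or_pos m with h0 | h0
    · subst h0; simp at h8
    · exact h0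
  by_cases hx : ∃ g ∈ GB, g ∣ m
  · obtain ⟨g, hg, hd⟩ := hx
    exact hG g hg _ h8 (Dvd.dvd.mul_left hd x.q)
  · push Not at hx
    have key : ∀ b2 b5 : Bool, ∀ y ∈ [((5 : ℕ), b5), ((2 : ℕ), b2)], y.1.Prime := by
      intro b2 b5 y hy
      simp only [List.mem_cons, List.not_mem_nil, or_false] at hy
      rcases hy with rfl | rfl
      · norm_num
      · norm_num
    by_cases h2 : 2 ∣ m
    · by_cases h5 : 5 ∣ m
      · have h10 : 10 ∣ m := by
          have := Nat.Coprime.mul_dvd_of_dvd_of_dvd (by norm_num : Nat.Coprime 2 5) h2 h5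
          simpa using this
        exact good10 _ h8 (Dvd.dvd.mul_left h10 x.q)
      · have H : Hyp GB [(5, false), (2, true)] m := ⟨hm, hx, key true false, by
          intro y hy
          simp only [List.mem_cons, List.not_mem_nil, or_false] at hy
          rcases hy with rfl | rfl
          · simpa using h5
          · simpa using h2⟩
        have := leafR_spec H (by omega) (by omega) l3
        rwa [show x.a₃ + (x.q - x.a₃) = x.q by omega] at this
    · by_cases h5 : 5 ∣ m
      · have H : Hyp GB [(5, true), (2, false)] m := ⟨hm, hx, key false true, by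
          intro y hy
          simp only [List.mem_cons, List.not_mem_nil, or_false] at hy
          rcases hy with rfl | rfl
          · simpa using h5
          · simpa using h2⟩
        have := leafR_spec H (by omega) (by omega) l2
        rwa [show x.a₂ + (x.q - x.a₂) = x.q by omega] at this
      · have H : Hyp GB [(5, false), (2, false)] m := ⟨hm, hx, key false false, by
          intro y hy
          simp only [List.mem_cons, List.not_mem_nil, or_false] at hy
          rcases hy with rfl | rfl
          · simpa using h5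
          · simpa using h2⟩
        have := leafR_spec H (by omega) (by omega) l1
        rwa [show x.a₁ + (x.q - x.a₁) = x.q by omega] at this

/-- the primes below 350 -/
def SP : List ℕ := [
  2, 3, 5, 7, 11, 13, 17, 19, 23, 29, 31, 37, 41, 43, 47, 53, 59, 61, 67, 71, 73, 79, 83, 89,
  97, 101, 103, 107, 109, 113, 127, 131, 137, 139, 149, 151, 157, 163, 167, 173, 179, 181,
  191, 193, 197, 199, 211, 223, 227, 229, 233, 239, 241, 251, 257, 263, 269, 271, 277, 281,
  283, 293, 307, 311, 313, 317, 331, 337, 347, 349]

/-- `n` has a proper divisor in `SP` -/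
def hasDiv (n : ℕ) : Bool := SP.any (fun d => Nat.beq (n % d) 0 && Nat.ble (d + 1) n && Nat.ble 2 d)

theorem not_prime_of_hasDiv {n : ℕ} (h : hasDiv n = true) : ¬ n.Prime := by
  intro hp
  simp only [hasDiv, List.any_eq_true, Bool.and_eq_true, Nat.ble_eq] at h
  obtain ⟨d, -, ⟨hd, h1⟩, h2⟩ := h
  have hd : d ∣ n := Nat.dvd_of_mod_eq_zero (Nat.eq_of_beq_eq_true hd)
  rcases (Nat.dvd_prime hp).1 hd with h3 | h3 <;> omega

/-- the numbers `n, ..., n + k - 1` are composite -/
def compIv : ℕ → ℕ → Bool
  | 0, _ => true
  | k + 1, n => hasDiv n && compIv k (n + 1)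

theorem compIv_spec : ∀ (k n : ℕ), compIv k n = true → ∀ q, n ≤ q → q < n + k → ¬ q.Prime := by
  intro k
  induction k with
  | zero => intro n _ q h1 h2; omega
  | succ k ih =>
    intro n h q h1 h2
    simp only [compIv, Bool.and_eq_true] at h
    rcases Nat.eq_or_lt_of_le h1 with h3 | h3
    · subst h3; exact not_prime_of_hasDiv h.1
    · exact ih (n + 1) h.2 q h3 (by omega)

/-- the entries contain all primes between the first bound and the last entry -/
def chkGap : ℕ → List Ent → Bool
  | _, [] => true
  | p, x :: xs => compIv (x.q - (p + 1)) (p + 1) && chkGap x.q xs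

/-- the last modulus of the list -/
def lastq : ℕ → List Ent → ℕ
  | p, [] => p
  | _, x :: xs => lastq x.q xs

theorem gap_spec : ∀ (xs : List Ent) (p : ℕ), chkGap p xs = true → ∀ q, q.Prime → p < q →
    q ≤ lastq p xs → ∃ x ∈ xs, x.q = q := by
  intro xs
  induction xs with
  | nil => intro p _ q _ h1 h2; simp only [lastq] at h2; omega
  | cons x xs ih =>
    intro p h q hq h1 h2
    simp only [chkGap, Bool.and_eq_true] at h
    simp only [lastq] at h2
    rcases lt_trichotomy q x.q with h3 | h3 | h3
    · exact absurd hq (compIv_spec _ _ h.1 q (by omega) (by omega))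
    · exact ⟨x, List.mem_cons_self, h3.symm⟩
    · obtain ⟨y, hy, e⟩ := ih x.q h.2 q hq h3 h2
      exact ⟨y, List.mem_cons.2 (Or.inr hy), e⟩

/-- one block of entries -/
def blk (p q : ℕ) (l : List Ent) : Bool := l.all chk3 && chkGap p l && Nat.beq (lastq p l) q

theorem blk_spec (hG : ∀ g ∈ GB, GoodM g) {p r : ℕ} {l : List Ent} (h : blk p r l = true) :
    ∀ q : ℕ, q.Prime → p < q → q ≤ r → GoodM q := by
  intro q hq h1 h2
  simp only [blk, Bool.and_eq_true] at h
  obtain ⟨⟨ha, hg⟩, hl⟩ := h
  have hl := Nat.eq_of_beq_eq_true hl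
  obtain ⟨x, hx, e⟩ := gap_spec l p hg q hq h1 (by omega)
  rw [← e]
  exact chk3_spec hG (List.all_eq_true.1 ha x hx)

end Pool.Agent.Sun64
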