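import Pool.Agent.Sun64.Data0
import Pool.Agent.Sun64.Seg

namespace Pool.Agent.Sun64

theorem s0 : Seg 97 691 708287766088 1000000000000 :=
  segB_spec (l := D0) (by decide +kernel)

theorem s1 : Seg 691 1427 905544305031 1000000000000 :=
  segB_spec (l := D1) (by decide +kernel)

theorem s2 : Seg 1427 2153 944627585927 1000000000000 :=
  segB_spec (l := D2) (by decide +kernel)

theorem s3 : Seg 2153 2953 961409217720 1000000000000 :=
  segB_spec (l := D3) (by decide +kernel)

theorem s4 : Seg 2953 3769 970663465550 1000000000000 :=
  segB_spec (l := D4) (by decide +kernel)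

theorem s5 : Seg 3769 4637 976365364291 1000000000000 :=
  segB_spec (l := D5) (by decide +kernel)

theorem s6 : Seg 4637 5483 980383258989 1000000000000 :=
  segB_spec (l := D6) (by decide +kernel)

theorem s7 : Seg 5483 6337 983218456435 1000000000000 :=
  segB_spec (l := D7) (by decide +kernel)

theorem s8 : Seg 6337 7237 985367617308 1000000000000 :=
  segB_spec (l := D8) (by decide +kernel)

theorem s9 : Seg 7237 8167 987090163471 1000000000000 :=
  segB_spec (l := D9) (by decide +kernel)

theorem s10 : Seg 8167 9049 988453649303 1000000000000 :=
  segB_spec (l := D10) (by decide +kernel)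

theorem s11 : Seg 9049 9931 989527379936 1000000000000 :=
  segB_spec (l := D11) (by decide +kernel)

theorem SF0 : Seg 97 9931 506237767008 1000000000000 :=
  (((((((((((s0.merge s1 (by norm_num) (by norm_num)).merge s2 (by norm_num) (by norm_num)).merge s3 (by norm_num) (by norm_num)).merge s4 (by norm_num) (by norm_num)).merge s5 (by norm_num) (by norm_num)).merge s6 (by norm_num) (by norm_num)).merge s7 (by norm_num) (by norm_num)).merge s8 (by norm_num) (by norm_num)).merge s9 (by norm_num) (by norm_num)).merge s10 (by norm_num) (by norm_num)).merge s11 (by norm_num) (by norm_num)).weaken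
    (by norm_num) (by norm_num)

end Pool.Agent.Sun64
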